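import Pool.Agent.helper17.LQ.SpecQ

/-!
# MP_07c750, project LQ, row QBS (few bad slopes, fourth power version)
-/

open MeasureTheory Set

set_option autoImplicit false

namespace Pool.Agent.LP

lemma QBS_conj (U : Set ℝ) (X t : ℝ) : ‖kk U X (-t)‖ = ‖kk U X t‖ := by
  have h : kk U X (-t) = (starRingEnd ℂ) (kk U X t) := by
    unfold kk
    rw [← integral_conj]
    have hf : (fun u : ℝ => ee (-t * mm X u) * (md X u : ℂ)) = fun u : ℝ => (starRingEnd ℂ) (ee (t * mm X u) * (md X u : ℂ)) := by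
      funext u
      rw [map_mul, Complex.conj_ofReal]
      have he : ee (-t * mm X u) = (starRingEnd ℂ) (ee (t * mm X u)) := by
        unfold ee
        rw [← Complex.exp_conj, map_mul, Complex.conj_I, Complex.conj_ofReal]
        congr 1
        push_cast
        ring
      rw [he]
    rw [hf]
  rw [h, Complex.norm_conj]

lemma QBS_abs (U : Set ℝ) (X t : ℝ) : ‖kk U X |t|‖ = ‖kk U X t‖ := by
  rcases abs_choice t with h | h
  · rw [h]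
  · rw [h, QBS_conj]

/-- the sum over the absolute values -/
lemma QBS_sum (T : Finset ℝ) (f : ℝ → ℝ) (h0 : ∀ t, 0 ≤ f t) (he : ∀ t, f |t| = f t) :
    ∑ t ∈ T, f t ≤ 2 * ∑ t ∈ T.image (fun t : ℝ => |t|), f t := by
  classical
  rw [← Finset.sum_fiberwise_of_maps_to (s := T) (t := T.image (fun t : ℝ => |t|)) (g := fun t : ℝ => |t|)
    (fun x hx => Finset.mem_image_of_mem _ hx), Finset.mul_sum]
  refine Finset.sum_le_sum fun s _ => ?_
  have h1 : ∑ t ∈ T.filter (fun t : ℝ => |t| = s), f t = ∑ t ∈ T.filter (fun t : ℝ => |t| = s), f s := by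
    refine Finset.sum_congr rfl fun t ht => ?_
    rw [← he t, (Finset.mem_filter.mp ht).2]
  rw [h1, Finset.sum_const, nsmul_eq_mul]
  refine mul_le_mul_of_nonneg_right ?_ (h0 s)
  have h2 : (T.filter (fun t : ℝ => |t| = s)) ⊆ ({s, -s} : Finset ℝ) := by
    intro t ht
    have h3 := (Finset.mem_filter.mp ht).2
    rw [Finset.mem_insert, Finset.mem_singleton]
    rcases abs_choice t with h | h
    · left
      rw [← h3, h]
    · right
      rw [← h3, h, neg_neg]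
  have h4 := (Finset.card_le_card h2).trans Finset.card_le_two
  exact_mod_cast h4

lemma QBS_count (T : Finset ℝ) (K2 a : ℝ) (h : ∀ y R : ℝ, 1 ≤ R → ((T.filter fun t => |t - y| ≤ R).card : ℝ) ≤ K2 * R ^ a)
    (y R : ℝ) (hR : 1 ≤ R) : (((T.image (fun t : ℝ => |t|)).filter fun t => |t - y| ≤ R).card : ℝ) ≤ 2 * K2 * R ^ a := by
  classical
  have h1 : ((T.image (fun t : ℝ => |t|)).filter fun t => |t - y| ≤ R) ⊆
      (T.filter fun t => |t - y| ≤ R).image (fun t : ℝ => |t|) ∪ (T.filter fun t => |t - -y| ≤ R).image (fun t : ℝ => |t|) := by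
    intro s hs
    obtain ⟨hs1, hs2⟩ := Finset.mem_filter.mp hs
    obtain ⟨t, ht, rfl⟩ := Finset.mem_image.mp hs1
    rw [Finset.mem_union]
    rcases abs_choice t with h | h
    · left
      refine Finset.mem_image_of_mem _ (Finset.mem_filter.mpr ⟨ht, ?_⟩)
      simp only [h] at hs2
      exact hs2
    · right
      refine Finset.mem_image_of_mem _ (Finset.mem_filter.mpr ⟨ht, ?_⟩)
      simp only [h] at hs2
      have h5 : t - -y = -(-t - y) := by ring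
      rw [h5, abs_neg]
      exact hs2
  have h2 := (Finset.card_le_card h1).trans (Finset.card_union_le _ _)
  have h3 : (((T.filter fun t => |t - y| ≤ R).image (fun t : ℝ => |t|)).card : ℝ) ≤ K2 * R ^ a :=
    le_trans (by exact_mod_cast Finset.card_image_le) (h y R hR)
  have h4 : (((T.filter fun t => |t - -y| ≤ R).image (fun t : ℝ => |t|)).card : ℝ) ≤ K2 * R ^ a :=
    le_trans (by exact_mod_cast Finset.card_image_le) (h (-y) R hR)
  have h5 : (((T.image (fun t : ℝ => |t|)).filter fun t => |t - y| ≤ R).card : ℝ) ≤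
      (((T.filter fun t => |t - y| ≤ R).image (fun t : ℝ => |t|)).card : ℝ) + (((T.filter fun t => |t - -y| ≤ R).image (fun t : ℝ => |t|)).card : ℝ) := by
    exact_mod_cast h2
  linarith

lemma QBS_pow4 (T : Finset ℝ) (g : ℝ → ℝ) : (∑ t ∈ T, g t) ^ 4 ≤ (T.card : ℝ) ^ 3 * ∑ t ∈ T, g t ^ 4 := by
  have h1 : (∑ t ∈ T, g t) ^ 2 ≤ (T.card : ℝ) * ∑ t ∈ T, g t ^ 2 := sq_sum_le_card_mul_sum_sq
  have h2 : (∑ t ∈ T, g t ^ 2) ^ 2 ≤ (T.card : ℝ) * ∑ t ∈ T, (g t ^ 2) ^ 2 := sq_sum_le_card_mul_sum_sq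
  have h3 : ∑ t ∈ T, (g t ^ 2) ^ 2 = ∑ t ∈ T, g t ^ 4 := Finset.sum_congr rfl fun t _ => by ring
  rw [h3] at h2
  calc (∑ t ∈ T, g t) ^ 4 = ((∑ t ∈ T, g t) ^ 2) ^ 2 := by ring
    _ ≤ ((T.card : ℝ) * ∑ t ∈ T, g t ^ 2) ^ 2 := pow_le_pow_left₀ (sq_nonneg _) h1 2
    _ = (T.card : ℝ) ^ 2 * (∑ t ∈ T, g t ^ 2) ^ 2 := by ring
    _ ≤ (T.card : ℝ) ^ 2 * ((T.card : ℝ) * ∑ t ∈ T, g t ^ 4) := mul_le_mul_of_nonneg_left h2 (sq_nonneg _)
    _ = (T.card : ℝ) ^ 3 * ∑ t ∈ T, g t ^ 4 := by ring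

/-- the set of pairs -/
lemma QBS_SQ (N K1 K2 a h : ℝ) (XX : Finset ℝ) (T' : ℝ → Finset ℝ) (S : Finset (ℝ × ℝ))
    (hS : ∀ p : ℝ × ℝ, p ∈ S ↔ p.1 ∈ XX ∧ p.2 ∈ T' p.1) (hK1 : 1 ≤ K1) (hK2 : 1 ≤ K2)
    (h1 : ∀ X ∈ XX, ∀ R : ℝ, 1 ≤ R → ((XX.filter fun X' => |X - X'| ≤ R / N).card : ℝ) ≤ K1 * R ^ h)
    (h2 : ∀ X ∈ XX, ∀ y R : ℝ, 1 ≤ R → (((T' X).filter fun t => |t - y| ≤ R).card : ℝ) ≤ 2 * K2 * R ^ a) :
    SQ N (2 * K1 * K2) (a + h) S := by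
  classical
  intro s hs R hR
  have hR0 : 0 < R := by linarith
  have hs1 := ((hS s).mp hs).1
  have hcard : ((S.filter fun s' : ℝ × ℝ => |s.1 - s'.1| ≤ R / N ∧ |s.2 - s'.2| ≤ R).card : ℝ) =
      ∑ X ∈ XX.filter (fun X' => |s.1 - X'| ≤ R / N), (((T' X).filter fun t => |t - s.2| ≤ R).card : ℝ) := by
    have h3 : ∑ p ∈ S.filter (fun s' : ℝ × ℝ => |s.1 - s'.1| ≤ R / N ∧ |s.2 - s'.2| ≤ R), (1 : ℝ) =
        ∑ X ∈ XX.filter (fun X' => |s.1 - X'| ≤ R / N), ∑ t ∈ (T' X).filter (fun t => |t - s.2| ≤ R), (1 : ℝ) := by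
      refine Finset.sum_finset_product _ _ _ ?_
      intro p
      rw [Finset.mem_filter, Finset.mem_filter, Finset.mem_filter, hS, abs_sub_comm p.2 s.2]
      tauto
    simp only [Finset.sum_const, nsmul_eq_mul, mul_one] at h3
    exact h3
  rw [hcard]
  calc ∑ X ∈ XX.filter (fun X' => |s.1 - X'| ≤ R / N), (((T' X).filter fun t => |t - s.2| ≤ R).card : ℝ)
      ≤ ∑ X ∈ XX.filter (fun X' => |s.1 - X'| ≤ R / N), 2 * K2 * R ^ a :=
        Finset.sum_le_sum fun X hX => h2 X (Finset.mem_filter.mp hX).1 s.2 R hR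
    _ = ((XX.filter (fun X' => |s.1 - X'| ≤ R / N)).card : ℝ) * (2 * K2 * R ^ a) := by
        rw [Finset.sum_const, nsmul_eq_mul]
    _ ≤ (K1 * R ^ h) * (2 * K2 * R ^ a) := by
        refine mul_le_mul_of_nonneg_right (h1 s.1 hs1 R hR) ?_
        have := Real.rpow_nonneg hR0.le a
        positivity
    _ = 2 * K1 * K2 * R ^ (a + h) := by
        rw [Real.rpow_add hR0]
        ring

theorem QBS_proof (hL4 : QL4_stmt) : QBS_stmt := by
  classical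
  intro C1 hC1
  obtain ⟨C, hC, HL⟩ := hL4 C1 hC1
  have hC0 : 0 < C := by linarith
  have hC10 : 0 < C1 := by linarith
  refine ⟨256 * C * C1 ^ 5, ?_, ?_⟩
  · have h1 : 1 ≤ C1 ^ 5 := one_le_pow₀ hC1
    nlinarith
  intro a h N T0 τ K1 K2 K' U XX T ha hh hh1 hah hah2 h2a hT0 hT0N hτ hK1 hK2 hK' hUm hUs hUQ hXX hT hbad
  have hN1 : 1 ≤ N := hT0.trans hT0N
  have hN0 : 0 < N := by linarith
  have ha2 : a ≤ 3 / 2 := by linarith
  set T' : ℝ → Finset ℝ := fun X => (T X).image (fun t : ℝ => |t|) with hT'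
  set S : Finset (ℝ × ℝ) := XX.biUnion (fun X => ({X} : Finset ℝ) ×ˢ T' X) with hSdef
  have hS : ∀ p : ℝ × ℝ, p ∈ S ↔ p.1 ∈ XX ∧ p.2 ∈ T' p.1 := by
    intro p
    rw [hSdef, Finset.mem_biUnion]
    constructor
    · rintro ⟨X, hX, hp⟩
      rw [Finset.mem_product, Finset.mem_singleton] at hp
      rw [hp.1]
      exact ⟨hX, hp.2⟩
    · rintro ⟨h1, h2⟩
      exact ⟨p.1, h1, by rw [Finset.mem_product, Finset.mem_singleton]; exact ⟨rfl, h2⟩⟩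
  have hcount : ∀ X ∈ XX, ∀ y R : ℝ, 1 ≤ R → (((T' X).filter fun t => |t - y| ≤ R).card : ℝ) ≤ 2 * K2 * R ^ a :=
    fun X hX y R hR => QBS_count (T X) K2 a (hT X hX).2.1 y R hR
  have hSQ : SQ N (2 * K1 * K2) (a + h) S := QBS_SQ N K1 K2 a h XX T' S hS hK1 hK2 hXX hcount
  have hSb : ∀ s ∈ S, |s.1| ≤ 1 / 16 ∧ T0 ≤ s.2 ∧ s.2 ≤ C1 * N := by
    intro s hs
    obtain ⟨h1, h2⟩ := (hS s).mp hs
    obtain ⟨t, ht, hts⟩ := Finset.mem_image.mp h2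
    have h3 := (hT s.1 h1).2.2 t ht
    refine ⟨(hT s.1 h1).1, ?_, ?_⟩
    · rw [← hts]; exact h3.1
    · rw [← hts]; exact h3.2
  have hmain := HL N T0 (2 * K1 * K2) K' (a + h) h U S hT0 hT0N (by nlinarith) hK' hh hh1 hah hah2 (by linarith) hUm hUs hUQ hSQ hSb
  have hsumS : ∑ s ∈ S, ‖kk U s.1 s.2‖ ^ 4 = ∑ X ∈ XX, ∑ t ∈ T' X, ‖kk U X t‖ ^ 4 :=
    Finset.sum_finset_product S XX T' hS (f := fun s => ‖kk U s.1 s.2‖ ^ 4)
  rw [hsumS] at hmain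
  -- the size of T' X
  have hcardT : ∀ X ∈ XX, ((T' X).card : ℝ) ≤ 2 * K2 * (C1 * N) ^ a := by
    intro X hX
    have h1 := hcount X hX 0 (C1 * N) (by nlinarith)
    have h2 : (T' X).filter (fun t => |t - 0| ≤ C1 * N) = T' X := by
      refine Finset.filter_true_of_mem fun t ht => ?_
      obtain ⟨t', ht', rfl⟩ := Finset.mem_image.mp ht
      rw [sub_zero, abs_abs]
      exact ((hT X hX).2.2 t' ht').2
    rw [h2] at h1
    exact h1
  set P : ℝ := 2 * K2 * (C1 * N) ^ a with hP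
  have hP0 : 0 ≤ P := by
    have := Real.rpow_nonneg (by positivity : (0 : ℝ) ≤ C1 * N) a
    positivity
  have hone : ∀ X ∈ XX, (τ / 2) ^ 4 ≤ P ^ 3 * ∑ t ∈ T' X, ‖kk U X t‖ ^ 4 := by
    intro X hX
    have h1 : τ ≤ 2 * ∑ t ∈ T' X, ‖kk U X t‖ :=
      (hbad X hX).trans (QBS_sum (T X) (fun t => ‖kk U X t‖) (fun t => norm_nonneg _) (fun t => QBS_abs U X t))
    have h2 : τ / 2 ≤ ∑ t ∈ T' X, ‖kk U X t‖ := by linarith
    have h3 : (τ / 2) ^ 4 ≤ (∑ t ∈ T' X, ‖kk U X t‖) ^ 4 := pow_le_pow_left₀ (by linarith) h2 4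
    refine h3.trans ((QBS_pow4 (T' X) fun t => ‖kk U X t‖).trans ?_)
    refine mul_le_mul_of_nonneg_right (pow_le_pow_left₀ (Nat.cast_nonneg _) (hcardT X hX) 3) ?_
    exact Finset.sum_nonneg fun t _ => by positivity
  have htot : (XX.card : ℝ) * (τ / 2) ^ 4 ≤ P ^ 3 * ∑ X ∈ XX, ∑ t ∈ T' X, ‖kk U X t‖ ^ 4 := by
    rw [Finset.mul_sum]
    calc (XX.card : ℝ) * (τ / 2) ^ 4 = ∑ X ∈ XX, (τ / 2) ^ 4 := by rw [Finset.sum_const, nsmul_eq_mul]
      _ ≤ _ := Finset.sum_le_sum hone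
  have hP3 : P ^ 3 ≤ 8 * K2 ^ 3 * C1 ^ 5 * N ^ (3 * a) := by
    have h1 : (C1 * N) ^ a = C1 ^ a * N ^ a := Real.mul_rpow hC10.le hN0.le
    have h2 : (C1 ^ a) ^ 3 ≤ C1 ^ 5 := by
      rw [← Real.rpow_natCast (C1 ^ a) 3, ← Real.rpow_mul hC10.le, ← Real.rpow_natCast C1 5]
      refine Real.rpow_le_rpow_of_exponent_le hC1 ?_
      push_cast
      linarith
    have h3 : (N ^ a) ^ 3 = N ^ (3 * a) := by
      rw [← Real.rpow_natCast (N ^ a) 3, ← Real.rpow_mul hN0.le]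
      congr 1
      push_cast
      ring
    have h4 : P ^ 3 = 8 * K2 ^ 3 * (C1 ^ a) ^ 3 * (N ^ a) ^ 3 := by
      rw [hP, h1]; ring
    rw [h4, h3]
    have h5 : 0 ≤ N ^ (3 * a) := Real.rpow_nonneg hN0.le _
    have h6 : 0 ≤ 8 * K2 ^ 3 := by positivity
    exact mul_le_mul_of_nonneg_right (mul_le_mul_of_nonneg_left h2 h6) h5
  have hlog : 0 ≤ Real.log N := Real.log_nonneg hN1
  have hNT : 0 ≤ N / T0 := by positivity
  have hfin : P ^ 3 * ∑ X ∈ XX, ∑ t ∈ T' X, ‖kk U X t‖ ^ 4 ≤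
      (8 * K2 ^ 3 * C1 ^ 5 * N ^ (3 * a)) * (C * (1 + Real.log N) ^ 3 * (N / T0) ^ 2 * (2 * K1 * K2) * K' ^ 4 * N ^ (2 * (h - 1))) := by
    refine mul_le_mul hP3 hmain ?_ ?_
    · exact Finset.sum_nonneg fun X _ => Finset.sum_nonneg fun t _ => by positivity
    · have h5 : 0 ≤ N ^ (3 * a) := Real.rpow_nonneg hN0.le _
      positivity
  have hNN : N ^ (3 * a) * N ^ (2 * (h - 1)) = N ^ (3 * a + 2 * h - 2) := by
    rw [← Real.rpow_add hN0]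
    congr 1
    ring
  have hall := htot.trans hfin
  calc (XX.card : ℝ) * τ ^ 4 = 16 * ((XX.card : ℝ) * (τ / 2) ^ 4) := by ring
    _ ≤ 16 * ((8 * K2 ^ 3 * C1 ^ 5 * N ^ (3 * a)) * (C * (1 + Real.log N) ^ 3 * (N / T0) ^ 2 * (2 * K1 * K2) * K' ^ 4 * N ^ (2 * (h - 1)))) :=
        mul_le_mul_of_nonneg_left hall (by norm_num)
    _ = 256 * C * C1 ^ 5 * (1 + Real.log N) ^ 3 * (N / T0) ^ 2 * K1 * K2 ^ 4 * K' ^ 4 * (N ^ (3 * a) * N ^ (2 * (h - 1))) := by ring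
    _ = 256 * C * C1 ^ 5 * (1 + Real.log N) ^ 3 * (N / T0) ^ 2 * K1 * K2 ^ 4 * K' ^ 4 * N ^ (3 * a + 2 * h - 2) := by rw [hNN]

end Pool.Agent.LP
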